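import Pool.Agent.Helper26.KD.St
import Pool.Agent.Helper65.CB.M_RR

/-! MP_65faa7, project KD: module Rr. -/

set_option autoImplicit false
set_option linter.unusedSectionVars false

open scoped BigOperators ENNReal Topology
open Pool.LE Pool.NL Filter

namespace Pool.KD

namespace RrM

theorem coord_le {d : ℕ} (z : Zd d) (i : Fin d) : ((z i : ℤ) : ℝ) ^ 2 ≤ LE.sq z := by
  unfold LE.sq
  exact Finset.single_le_sum (f := fun i => ((z i : ℤ) : ℝ) ^ 2) (fun j _ => sq_nonneg _)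
    (Finset.mem_univ i)

theorem dq_sq_le {d : ℕ} (n : ℕ) (hn : 1 ≤ n) (hd : 1 ≤ d) (x : Zd d) :
    (CB.dq n x : ℝ) ^ 2 ≤ LE.sq (x - fun _ => ((n / 2 : ℕ) : ℤ)) := by
  have hne : (Finset.univ : Finset (Fin d)).Nonempty := ⟨⟨0, hd⟩, Finset.mem_univ _⟩
  obtain ⟨i, -, hi⟩ := Finset.exists_mem_eq_sup _ hne
    (fun i => (max (-x i) (x i - ((n : ℤ) - 1))).toNat)
  have h1 : (CB.dq n x) = (max (-x i) (x i - ((n : ℤ) - 1))).toNat := hi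
  have h2 : (CB.dq n x : ℤ) ≤ |x i - ((n / 2 : ℕ) : ℤ)| := by
    rw [h1]
    have h3 : ((n / 2 : ℕ) : ℤ) ≤ n - 1 := by omega
    have h4 : (0 : ℤ) ≤ ((n / 2 : ℕ) : ℤ) := Int.natCast_nonneg _
    have h5 := le_abs_self (x i - ((n / 2 : ℕ) : ℤ))
    have h6 := neg_abs_le (x i - ((n / 2 : ℕ) : ℤ))
    have h7 := abs_nonneg (x i - ((n / 2 : ℕ) : ℤ))
    rw [Int.toNat_eq_max]
    refine max_le (max_le ?_ ?_) h7
    · linarith
    · linarith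
  have h3 : ((x i - ((n / 2 : ℕ) : ℤ) : ℤ) : ℝ) ^ 2 ≤ LE.sq (x - fun _ => ((n / 2 : ℕ) : ℤ)) :=
    coord_le (x - fun _ => ((n / 2 : ℕ) : ℤ)) i
  refine le_trans ?_ h3
  have h4 : (CB.dq n x : ℝ) ≤ |((x i - ((n / 2 : ℕ) : ℤ) : ℤ) : ℝ)| := by
    exact_mod_cast h2
  calc (CB.dq n x : ℝ) ^ 2 ≤ |((x i - ((n / 2 : ℕ) : ℤ) : ℤ) : ℝ)| ^ 2 :=
        pow_le_pow_left₀ (Nat.cast_nonneg _) h4 2
    _ = _ := sq_abs _

theorem sq_le {d : ℕ} (n : ℕ) (x : Zd d) :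
    LE.sq (x - fun _ => ((n / 2 : ℕ) : ℤ)) ≤ d * ((n : ℝ) + CB.dq n x) ^ 2 := by
  have h := (CB.RRM.dq_le_iff n x (CB.dq n x)).1 le_rfl
  have h1 : ∀ i : Fin d, ((x i - ((n / 2 : ℕ) : ℤ) : ℤ) : ℝ) ^ 2 ≤
      ((n : ℝ) + CB.dq n x) ^ 2 := by
    intro i
    have h2 := h i
    have h4 : (0 : ℤ) ≤ ((n / 2 : ℕ) : ℤ) := Int.natCast_nonneg _
    have h5 : ((n / 2 : ℕ) : ℤ) ≤ n := by omega
    have h3 : |x i - ((n / 2 : ℕ) : ℤ)| ≤ (n : ℤ) + CB.dq n x := by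
      rw [abs_le]
      constructor
      · linarith [h2.1]
      · linarith [h2.2]
    have h6 : |((x i - ((n / 2 : ℕ) : ℤ) : ℤ) : ℝ)| ≤ (n : ℝ) + CB.dq n x := by
      exact_mod_cast h3
    rw [← sq_abs]
    exact pow_le_pow_left₀ (abs_nonneg _) h6 2
  unfold LE.sq
  have h2 := Finset.sum_le_card_nsmul (Finset.univ : Finset (Fin d)) _ _ (fun i _ => h1 i)
  rw [Finset.card_univ, Fintype.card_fin, nsmul_eq_mul] at h2
  exact h2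

end RrM

open RrM in
theorem hRr : StRr := by
  intro d hd
  refine ⟨2 + d, by
    have : (0 : ℝ) ≤ d := Nat.cast_nonneg _
    linarith, fun n x hn => ?_⟩
  have hn0 : (0 : ℝ) < n := by exact_mod_cast hn
  have h1 := CB.RRM.one_le_rr n x
  have h2 := dq_sq_le n hn hd x
  have h3 := sq_le n x
  have hd0 : (0 : ℝ) ≤ d := Nat.cast_nonneg _
  set S : ℝ := LE.sq (x - fun _ => ((n / 2 : ℕ) : ℤ)) with hS
  have hq0 : (0 : ℝ) ≤ CB.dq n x := Nat.cast_nonneg _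
  have hr : CB.rr n x = 1 + (CB.dq n x : ℝ) / n := rfl
  have hqq : qq (n : ℝ) (x - fun _ => ((n / 2 : ℕ) : ℤ)) = 1 + S / (n : ℝ) ^ 2 := rfl
  have hS0 : 0 ≤ S := le_trans (sq_nonneg _) h2
  refine ⟨h1, ?_, ?_⟩
  · have h4 : ((CB.dq n x : ℝ) / n) ^ 2 ≤ S / (n : ℝ) ^ 2 := by
      rw [div_pow]
      exact div_le_div_of_nonneg_right h2 (by positivity)
    have h5 : CB.rr n x ^ 2 ≤ 2 * (1 + S / (n : ℝ) ^ 2) := by
      rw [hr]
      nlinarith [sq_nonneg (1 - (CB.dq n x : ℝ) / n)]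
    rw [hqq]
    have h6 : 0 ≤ 1 + S / (n : ℝ) ^ 2 := by positivity
    nlinarith
  · have h4 : S / (n : ℝ) ^ 2 ≤ d * CB.rr n x ^ 2 := by
      rw [div_le_iff₀ (by positivity)]
      have e : d * CB.rr n x ^ 2 * (n : ℝ) ^ 2 = d * ((n : ℝ) * CB.rr n x) ^ 2 := by ring
      rw [e, CB.RRM.rr_mul n hn x]
      exact h3
    rw [hqq]
    have h5 : 1 ≤ CB.rr n x ^ 2 := by nlinarith
    nlinarith

end Pool.KD
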